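import Mathlib

/-!
# Product-free sets of words: no stability near density 1/2 (MP_ae7721_co)

Words over a finite alphabet `A` are lists; the free semigroup consists of the nonempty words.
-/

namespace Pool.Agent.Results.MP_ae7721_co.NoStability

open Finset Filter

/-! ### Definitions of the statement -/

/-- The proportion of the words of length `n` which lie in `B`. -/
noncomputable def density {A : Type} [Fintype A] (B : Set (List A)) (n : ℕ) : ℝ :=
  ({w : List A | w ∈ B ∧ w.length = n}.ncard : ℝ) / (Fintype.card A : ℝ) ^ n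

/-- The mean `d^I(B)` of the proportions over the interval `I = {a, …, a + l - 1}`. -/
noncomputable def intervalDensity {A : Type} [Fintype A] (B : Set (List A)) (I : ℕ × ℕ) : ℝ :=
  (∑ n ∈ Finset.Ico I.1 (I.1 + I.2), density B n) / (I.2 : ℝ)

/-- The upper Banach density: the upper limit of `d^I(B)` as both the minimum and the length of
the interval `I` tend to infinity. -/
noncomputable def upperBanach {A : Type} [Fintype A] (B : Set (List A)) : ℝ :=
  limsup (intervalDensity B) atTop

/-- A product-free set of nonempty words. -/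
def ProductFree {A : Type} (S : Set (List A)) : Prop :=
  (∀ w ∈ S, w ≠ []) ∧ ∀ u ∈ S, ∀ v ∈ S, u ++ v ∉ S

open Classical in
/-- The words with an odd total number of occurrences of letters from `Γ`. -/
def oddOcc {A : Type} (Γ : Set A) : Set (List A) :=
  {w | Odd (w.countP fun a => decide (a ∈ Γ))}

/-! ### Words of a given length -/

section Words

variable {A : Type} [Fintype A] [DecidableEq A]

/-- the words of length `n` -/
def W (A : Type) [Fintype A] [DecidableEq A] : ℕ → Finset (List A)
  | 0 => {[]}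
  | n + 1 => (univ ×ˢ W A n).image fun p => p.1 :: p.2

lemma mem_W {n : ℕ} {w : List A} : w ∈ W A n ↔ w.length = n := by
  induction n generalizing w with
  | zero => simp [W, List.length_eq_zero_iff]
  | succ n ih =>
    simp only [W, mem_image, mem_product, mem_univ, true_and, Prod.exists]
    constructor
    · rintro ⟨a, v, hv, rfl⟩
      simp [ih.mp hv]
    · intro h
      cases w with
      | nil => simp at h
      | cons a v => exact ⟨a, v, ih.mpr (by simpa using h), rfl⟩

lemma sum_W_succ (n : ℕ) (f : List A → ℝ) :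
    ∑ w ∈ W A (n + 1), f w = ∑ a : A, ∑ w ∈ W A n, f (a :: w) := by
  rw [W, Finset.sum_image, Finset.sum_product]
  rintro ⟨a, u⟩ _ ⟨b, v⟩ _ h
  simpa using h

lemma sum_W_add (b n : ℕ) (f : List A → ℝ) :
    ∑ w ∈ W A (b + n), f w = ∑ t ∈ W A b, ∑ q ∈ W A n, f (t ++ q) := by
  induction b generalizing f with
  | zero => simp [W]
  | succ b ih =>
    rw [show b + 1 + n = (b + n) + 1 by omega, sum_W_succ, sum_W_succ]
    refine Finset.sum_congr rfl fun a _ => ?_
    rw [ih]
    rfl

lemma card_W (n : ℕ) : ((W A n).card : ℝ) = (Fintype.card A : ℝ) ^ n := by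
  induction n with
  | zero => simp [W]
  | succ n ih =>
    have h := sum_W_succ (A := A) n (fun _ => 1)
    simp only [Finset.sum_const, nsmul_eq_mul, mul_one, Finset.card_univ] at h
    rw [h, ih]
    ring

end Words

/-! ### Occurrences of the pattern `0^k 1` -/

section Occ

variable {A : Type} [DecidableEq A]

/-- The number of occurrences of the word `x` in a word. -/
def occ (x : List A) : List A → ℕ
  | [] => 0
  | a :: w => occ x w + if x <+: (a :: w) then 1 else 0

/-- the pattern `0^k 1` -/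
def pat (z o : A) (k : ℕ) : List A := List.replicate k z ++ [o]

variable {z o : A}

omit [DecidableEq A] in
lemma prefix_append_one (h : z ≠ o) (k : ℕ) (p r : List A) :
    pat z o k <+: p ++ o :: r ↔ pat z o k <+: p ++ [o] := by
  induction k generalizing p with
  | zero =>
    cases p with
    | nil => simp [pat]
    | cons a p => simp [pat]
  | succ k ih =>
    cases p with
    | nil =>
      simp only [pat, List.replicate_succ, List.cons_append, List.nil_append,
        List.cons_prefix_cons]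
      constructor
      · rintro ⟨h1, _⟩; exact absurd h1 h
      · rintro ⟨h1, _⟩; exact absurd h1 h
    | cons a p =>
      have := ih p
      simp only [pat, List.replicate_succ, List.cons_append, List.cons_prefix_cons] at this ⊢
      rw [this]

omit [DecidableEq A] in
lemma prefix_zeros (h : z ≠ o) (k j : ℕ) (s : List A) :
    pat z o k <+: List.replicate j z ++ o :: s ↔ k = j := by
  induction k generalizing j with
  | zero =>
    cases j with
    | zero => simp [pat]
    | succ j => simp [pat, List.replicate_succ, h.symm]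
  | succ k ih =>
    cases j with
    | zero => simp [pat, List.replicate_succ, h]
    | succ j =>
      have := ih j
      simp only [pat, List.replicate_succ, List.cons_append, List.cons_prefix_cons,
        true_and] at this ⊢
      rw [this]
      omega

lemma occ_one_cons (h : z ≠ o) {k : ℕ} (hk : 0 < k) (s : List A) :
    occ (pat z o k) (o :: s) = occ (pat z o k) s := by
  have h1 : ¬ pat z o k <+: o :: s := by
    have := prefix_zeros h k 0 s
    simp only [List.replicate_zero, List.nil_append] at this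
    rw [this]
    omega
  simp [occ, h1]

lemma occ_zeros (h : z ≠ o) {k : ℕ} (hk : 0 < k) (j : ℕ) (s : List A) :
    occ (pat z o k) (List.replicate j z ++ o :: s) =
      occ (pat z o k) s + if k ≤ j then 1 else 0 := by
  induction j with
  | zero =>
    rw [List.replicate_zero, List.nil_append, occ_one_cons h hk, if_neg (by omega), add_zero]
  | succ j ih =>
    have h1 := prefix_zeros h k (j + 1) s
    rw [List.replicate_succ, List.cons_append] at h1 ⊢
    rw [occ, ih]
    by_cases hkj : k = j + 1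
    · rw [if_pos (h1.mpr hkj), if_neg (by omega), if_pos (by omega)]
    · rw [if_neg (fun h2 => hkj (h1.mp h2))]
      by_cases h3 : k ≤ j
      · rw [if_pos h3, if_pos (by omega)]
      · rw [if_neg h3, if_neg (by omega)]

/-- the two exchangeable blocks -/
def B1 (z o : A) (k : ℕ) : List A := o :: (List.replicate (k + 1) z ++ [o, o])
def B2 (z o : A) (k : ℕ) : List A := o :: (List.replicate k z ++ [o, z, o])

lemma occ_blocks (h : z ≠ o) {k : ℕ} (hk : 0 < k) (p q : List A) :
    occ (pat z o (k + 1)) (p ++ B1 z o k ++ q) = occ (pat z o (k + 1)) (p ++ B2 z o k ++ q) + 1 := by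
  induction p with
  | nil =>
    have e1 : [] ++ B1 z o k ++ q = o :: (List.replicate (k + 1) z ++ o :: (o :: q)) := by
      simp [B1]
    have e2 : [] ++ B2 z o k ++ q = o :: (List.replicate k z ++ o :: (z :: o :: q)) := by
      simp [B2]
    rw [e1, e2, occ_one_cons h (by omega), occ_one_cons h (by omega), occ_zeros h (by omega),
      occ_zeros h (by omega), occ_one_cons h (by omega), if_pos le_rfl, if_neg (by omega)]
    have e3 : z :: o :: q = List.replicate 1 z ++ o :: q := by simp
    rw [e3, occ_zeros h (by omega), if_neg (by omega)]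
  | cons a p ih =>
    simp only [List.cons_append, occ]
    rw [ih]
    have e1 : (a :: (p ++ B1 z o k ++ q)) = (a :: p) ++ o :: (List.replicate (k + 1) z ++ [o, o] ++ q) := by
      simp [B1]
    have e2 : (a :: (p ++ B2 z o k ++ q)) = (a :: p) ++ o :: (List.replicate k z ++ [o, z, o] ++ q) := by
      simp [B2]
    rw [e1, e2]
    simp only [prefix_append_one h]
    ring

omit [DecidableEq A] in
/-- an initial segment of `0^k 1` which is not everything consists of zeros -/
lemma straddle {k : ℕ} {u v : List A} (h1 : pat z o k <+: u ++ v)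
    (h2 : ¬ pat z o k <+: u) :
    ∃ j ≤ k, u = List.replicate j z ∧ pat z o (k - j) <+: v := by
  induction k generalizing u with
  | zero =>
    cases u with
    | nil => exact ⟨0, le_rfl, rfl, by simpa using h1⟩
    | cons a u =>
      exfalso
      apply h2
      simp only [pat, List.replicate_zero, List.nil_append, List.cons_append,
        List.cons_prefix_cons] at h1 ⊢
      exact ⟨h1.1, by simp⟩
  | succ k ih =>
    cases u with
    | nil => exact ⟨0, Nat.zero_le _, rfl, by simpa using h1⟩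
    | cons a u =>
      simp only [pat, List.replicate_succ, List.cons_append, List.cons_prefix_cons] at h1 h2
      obtain ⟨rfl, h1⟩ := h1
      have h2' : ¬ pat z o k <+: u := fun h => h2 ⟨rfl, h⟩
      obtain ⟨j, hj, rfl, hv⟩ := ih h1 h2'
      exact ⟨j + 1, by omega, by simp [List.replicate_succ], by
        rwa [show k + 1 - (j + 1) = k - j by omega]⟩

lemma occ_append {h : ℕ} {u v : List A}
    (hu : ¬ List.replicate h z <:+ u) (hv : ¬ List.replicate h z <+: v) :
    occ (pat z o (2 * h)) (u ++ v) = occ (pat z o (2 * h)) u + occ (pat z o (2 * h)) v := by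
  induction u with
  | nil => simp [occ]
  | cons a u ih =>
    have hu' : ¬ List.replicate h z <:+ u := fun hc => hu (hc.trans (List.suffix_cons a u))
    have key : pat z o (2 * h) <+: (a :: u) ++ v ↔ pat z o (2 * h) <+: (a :: u) := by
      constructor
      · intro h1
        by_contra h2
        obtain ⟨j, hj, hj1, hj2⟩ := straddle h1 h2
        rcases le_or_gt h j with hc | hc
        · apply hu
          rw [hj1]
          exact ⟨List.replicate (j - h) z, by rw [← List.replicate_add]; congr 1; omega⟩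
        · apply hv
          refine List.IsPrefix.trans ?_ hj2
          refine ⟨List.replicate (2 * h - j - h) z ++ [o], ?_⟩
          rw [pat, ← List.append_assoc, ← List.replicate_add]
          congr 2
          omega
      · intro h1
        exact h1.trans (List.prefix_append _ _)
    rw [List.cons_append, occ, occ, ih hu']
    rw [List.cons_append] at key
    simp only [key]
    ring

end Occ

/-! ### Character sums -/

section Sums

variable {A : Type} [Fintype A] [DecidableEq A] {z o : A}

/-- the character sum -/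
noncomputable def T (x : List A) (χ : A → ℝ) (p : List A) (n : ℕ) : ℝ :=
  ∑ w ∈ W A n, (-1) ^ occ x (p ++ w) * (w.map χ).prod

omit [Fintype A] [DecidableEq A] in
lemma length_B1 (k : ℕ) : (B1 z o k).length = k + 4 := by simp [B1]

omit [Fintype A] [DecidableEq A] in
lemma length_B2 (k : ℕ) : (B2 z o k).length = k + 4 := by simp [B2]

omit [Fintype A] in
lemma B1_ne_B2 (h : z ≠ o) {k : ℕ} (hk : 0 < k) : B1 z o k ≠ B2 z o k := by
  intro he
  have h0 := occ_blocks h hk [] []
  rw [he] at h0
  omega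

omit [Fintype A] [DecidableEq A] in
lemma abs_prod (χ : A → ℝ) (hχ : ∀ a, |χ a| = 1) (w : List A) : |(w.map χ).prod| = 1 := by
  induction w with
  | nil => simp
  | cons a w ih => rw [List.map_cons, List.prod_cons, abs_mul, hχ, ih, one_mul]

lemma abs_T_le_card (x : List A) (χ : A → ℝ) (hχ : ∀ a, |χ a| = 1) (p : List A) (n : ℕ) :
    |T x χ p n| ≤ (Fintype.card A : ℝ) ^ n := by
  rw [← card_W, T]
  refine (Finset.abs_sum_le_sum_abs _ _).trans ?_
  rw [← nsmul_one (W A n).card, ← Finset.sum_const]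
  refine Finset.sum_le_sum fun w _ => ?_
  rw [abs_mul, abs_pow, abs_neg, abs_one, one_pow, one_mul, abs_prod χ hχ]

lemma T_bound (h : z ≠ o) {k : ℕ} (hk : 0 < k) (χ : A → ℝ) (hχ : ∀ a, |χ a| = 1)
    (m n : ℕ) : ∀ p : List A, |T (pat z o (k + 1)) χ p (m * (k + 4) + n)| ≤
      ((Fintype.card A : ℝ) ^ (k + 4) - 2) ^ m * (Fintype.card A : ℝ) ^ n := by
  induction m with
  | zero => intro p; simpa using abs_T_le_card _ χ hχ p n
  | succ m ih =>
    intro p
    set c : ℝ := (Fintype.card A : ℝ)
    have hB1 : B1 z o k ∈ W A (k + 4) := mem_W.mpr (length_B1 k)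
    have hB2 : B2 z o k ∈ (W A (k + 4)).erase (B1 z o k) :=
      Finset.mem_erase.mpr ⟨(B1_ne_B2 h hk).symm, mem_W.mpr (length_B2 k)⟩
    have hT : T (pat z o (k + 1)) χ p ((m + 1) * (k + 4) + n) =
        ∑ t ∈ W A (k + 4), (t.map χ).prod * T (pat z o (k + 1)) χ (p ++ t) (m * (k + 4) + n) := by
      rw [T, show (m + 1) * (k + 4) + n = (k + 4) + (m * (k + 4) + n) by ring, sum_W_add]
      refine Finset.sum_congr rfl fun t _ => ?_
      rw [T, Finset.mul_sum]
      refine Finset.sum_congr rfl fun q _ => ?_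
      rw [List.map_append, List.prod_append, List.append_assoc]
      ring
    have hcancel : ((B1 z o k).map χ).prod *
          T (pat z o (k + 1)) χ (p ++ B1 z o k) (m * (k + 4) + n) +
        ((B2 z o k).map χ).prod * T (pat z o (k + 1)) χ (p ++ B2 z o k) (m * (k + 4) + n) = 0 := by
      have e1 : ((B1 z o k).map χ).prod = ((B2 z o k).map χ).prod := by
        simp only [B1, B2, List.map_cons, List.map_append, List.map_replicate, List.prod_cons,
          List.prod_append, List.prod_replicate, List.map_nil, List.prod_nil]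
        ring
      have e2 : T (pat z o (k + 1)) χ (p ++ B1 z o k) (m * (k + 4) + n) =
          - T (pat z o (k + 1)) χ (p ++ B2 z o k) (m * (k + 4) + n) := by
        rw [T, T, ← Finset.sum_neg_distrib]
        refine Finset.sum_congr rfl fun q _ => ?_
        rw [occ_blocks h hk, pow_succ]
        ring
      rw [e1, e2]
      ring
    rw [hT, ← Finset.add_sum_erase _ _ hB1, ← Finset.add_sum_erase _ _ hB2, ← add_assoc, hcancel,
      zero_add]
    refine (Finset.abs_sum_le_sum_abs _ _).trans ?_
    have hle : ∀ t ∈ ((W A (k + 4)).erase (B1 z o k)).erase (B2 z o k),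
        |(t.map χ).prod * T (pat z o (k + 1)) χ (p ++ t) (m * (k + 4) + n)| ≤
          (c ^ (k + 4) - 2) ^ m * c ^ n := by
      intro t _
      rw [abs_mul, abs_prod χ hχ, one_mul]
      exact ih _
    refine (Finset.sum_le_sum hle).trans ?_
    rw [Finset.sum_const, nsmul_eq_mul, Finset.card_erase_of_mem hB2, Finset.card_erase_of_mem hB1]
    have hcard : 2 ≤ (W A (k + 4)).card := by
      have h1 : (B1 z o k) ∈ W A (k + 4) := hB1
      have h2 : (B2 z o k) ∈ W A (k + 4) := mem_W.mpr (length_B2 k)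
      exact Finset.one_lt_card.mpr ⟨_, h1, _, h2, B1_ne_B2 h hk⟩
    have e : (((W A (k + 4)).card - 1 - 1 : ℕ) : ℝ) = c ^ (k + 4) - 2 := by
      rw [← card_W]
      push_cast [Nat.sub_sub, Nat.cast_sub hcard]
      ring
    rw [e, pow_succ]
    apply le_of_eq
    ring

lemma sum_prod (χ : A → ℝ) (n : ℕ) :
    ∑ w ∈ W A n, (w.map χ).prod = (∑ a, χ a) ^ n := by
  induction n with
  | zero => simp [W]
  | succ n ih =>
    rw [sum_W_succ, pow_succ, ← ih, mul_comm, Finset.sum_mul]
    refine Finset.sum_congr rfl fun a _ => ?_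
    rw [Finset.mul_sum]
    refine Finset.sum_congr rfl fun w _ => ?_
    rw [List.map_cons, List.prod_cons]

open Classical in
lemma prefix_count (s : List A) (m : ℕ) :
    ∑ w ∈ W A (s.length + m), (if s <+: w then (1 : ℝ) else 0) ≤ (Fintype.card A : ℝ) ^ m := by
  rw [sum_W_add]
  have h1 : ∀ t ∈ W A s.length, ∑ q ∈ W A m, (if s <+: t ++ q then (1 : ℝ) else 0) =
      if t = s then (Fintype.card A : ℝ) ^ m else 0 := by
    intro t ht
    rw [mem_W] at ht
    have h2 : ∀ q, s <+: t ++ q ↔ t = s := by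
      intro q
      rw [List.prefix_iff_eq_take, List.take_left' ht, eq_comm]
    simp only [h2]
    by_cases h3 : t = s
    · simp only [h3, if_true, Finset.sum_const, nsmul_eq_mul, mul_one, card_W]
    · simp [h3]
  rw [Finset.sum_congr rfl h1, Finset.sum_ite_eq' (W A s.length) s]
  split_ifs
  · exact le_rfl
  · positivity

open Classical in
lemma suffix_count (s : List A) (m : ℕ) :
    ∑ w ∈ W A (m + s.length), (if s <:+ w then (1 : ℝ) else 0) ≤ (Fintype.card A : ℝ) ^ m := by
  rw [sum_W_add]
  have h1 : ∀ q ∈ W A m, ∑ t ∈ W A s.length, (if s <:+ q ++ t then (1 : ℝ) else 0) = 1 := by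
    intro q hq
    rw [mem_W] at hq
    have h2 : ∀ t ∈ W A s.length, (if s <:+ q ++ t then (1 : ℝ) else 0) = if t = s then 1 else 0 := by
      intro t ht
      rw [mem_W] at ht
      have h4 : s <:+ q ++ t ↔ t = s := by
        rw [List.suffix_iff_eq_drop, List.length_append, ht, Nat.add_sub_cancel,
          List.drop_left, eq_comm]
      simp only [h4]
    rw [Finset.sum_congr rfl h2, Finset.sum_ite_eq' (W A s.length) s, if_pos (mem_W.mpr rfl)]
  rw [Finset.sum_congr rfl h1, Finset.sum_const, nsmul_eq_mul, mul_one, card_W]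

lemma density_eq (B : Set (List A)) [DecidablePred (· ∈ B)] (n : ℕ) :
    density B n = (∑ w ∈ W A n, if w ∈ B then (1 : ℝ) else 0) / (Fintype.card A : ℝ) ^ n := by
  rw [density]
  congr 1
  rw [Finset.sum_ite, Finset.sum_const_zero, add_zero, Finset.sum_const, nsmul_eq_mul, mul_one]
  congr 1
  rw [← Set.ncard_coe_finset]
  congr 1
  ext w
  simp only [Set.mem_ofPred_eq, Finset.coe_filter, mem_W]
  tauto

/-- The set of the counterexample: the words with an odd number of occurrences of `0^{2h} 1`, which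
neither begin nor end with `0^h`. -/
def S (z o : A) (h : ℕ) : Set (List A) :=
  {w | Odd (occ (pat z o (2 * h)) w) ∧ ¬ List.replicate h z <+: w ∧ ¬ List.replicate h z <:+ w}

omit [Fintype A] in
lemma productFree_S (z o : A) (h : ℕ) : ProductFree (S z o h) := by
  refine ⟨?_, ?_⟩
  · rintro w ⟨hw, _⟩ rfl
    simp [occ] at hw
  · rintro u ⟨hu, _, hu2⟩ v ⟨hv, hv1, _⟩ ⟨huv, _⟩
    rw [occ_append hu2 hv1] at huv
    exact (Nat.not_odd_iff_even.mpr (hu.add_odd hv)) huv

open Classical in
/-- the sign of the parity of the number of letters from `Γ` -/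
noncomputable def sgn (Γ : Set A) (a : A) : ℝ := if a ∈ Γ then -1 else 1

omit [Fintype A] [DecidableEq A] in
lemma abs_sgn (Γ : Set A) (a : A) : |sgn Γ a| = 1 := by
  unfold sgn
  split_ifs <;> simp

open Classical in
omit [Fintype A] [DecidableEq A] in
lemma prod_sgn (Γ : Set A) (w : List A) :
    (w.map (sgn Γ)).prod = if w ∈ oddOcc Γ then -1 else 1 := by
  classical
  have key : (w.map (sgn Γ)).prod = (-1 : ℝ) ^ (w.countP fun a => decide (a ∈ Γ)) := by
    induction w with
    | nil => simp
    | cons a w ih =>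
      rw [List.map_cons, List.prod_cons, ih, List.countP_cons, pow_add, mul_comm]
      congr 1
      unfold sgn
      by_cases ha : a ∈ Γ <;> simp [ha]
  rw [key]
  by_cases hw : Odd (w.countP fun a => decide (a ∈ Γ))
  · have hw' : w ∈ oddOcc Γ := hw
    rw [hw.neg_one_pow, if_pos hw']
  · have hw' : w ∉ oddOcc Γ := hw
    rw [if_neg hw', (Nat.not_odd_iff_even.mp hw).neg_one_pow]

/-- the basic lower bound -/
lemma density_ge (hzo : z ≠ o) {h : ℕ} (hh : 0 < h) (Γ : Set A) {n : ℕ} (hn : h ≤ n) :
    1 / 4 * (1 + ((∑ a, sgn Γ a) / (Fintype.card A : ℝ)) ^ n -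
      2 * (((Fintype.card A : ℝ) ^ (2 * h + 3) - 2) / (Fintype.card A : ℝ) ^ (2 * h + 3)) ^
        (n / (2 * h + 3))) - 2 / (Fintype.card A : ℝ) ^ h ≤ density (S z o h \ oddOcc Γ) n := by
  classical
  set c : ℝ := (Fintype.card A : ℝ) with hc
  have hcard : 2 ≤ Fintype.card A := Fintype.one_lt_card_iff.mpr ⟨z, o, hzo⟩
  have hc2 : (2 : ℝ) ≤ c := by
    rw [hc]
    exact_mod_cast hcard
  have hc0 : 0 < c := by linarith
  obtain ⟨k, rfl⟩ : ∃ k, h = k + 1 := ⟨h - 1, by omega⟩
  set x := pat z o (2 * (k + 1)) with hx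
  set χ := sgn Γ with hχdef
  have hT1 : |T x (fun _ => (1 : ℝ)) [] n| ≤
      (c ^ (2 * (k + 1) + 3) - 2) ^ (n / (2 * (k + 1) + 3)) * c ^ (n % (2 * (k + 1) + 3)) := by
    have := T_bound (z := z) (o := o) hzo (k := 2 * k + 1) (by omega) (fun _ => (1 : ℝ))
      (fun _ => by simp) (n / (2 * (k + 1) + 3)) (n % (2 * (k + 1) + 3)) []
    rw [show 2 * k + 1 + 4 = 2 * (k + 1) + 3 by ring, Nat.div_add_mod'] at this
    exact this
  have hT2 : |T x χ [] n| ≤
      (c ^ (2 * (k + 1) + 3) - 2) ^ (n / (2 * (k + 1) + 3)) * c ^ (n % (2 * (k + 1) + 3)) := by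
    have := T_bound (z := z) (o := o) hzo (k := 2 * k + 1) (by omega) χ
      (abs_sgn Γ) (n / (2 * (k + 1) + 3)) (n % (2 * (k + 1) + 3)) []
    rw [show 2 * k + 1 + 4 = 2 * (k + 1) + 3 by ring, Nat.div_add_mod'] at this
    exact this
  set b := 2 * (k + 1) + 3 with hb
  have hpow : (c ^ b - 2) ^ (n / b) * c ^ (n % b) =
      ((c ^ b - 2) / c ^ b) ^ (n / b) * c ^ n := by
    rw [div_pow, ← pow_mul]
    have : c ^ n = c ^ (b * (n / b)) * c ^ (n % b) := by rw [← pow_add, Nat.div_add_mod]
    rw [this]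
    field_simp
  have hpre : ∑ w ∈ W A n, (if List.replicate (k + 1) z <+: w then (1 : ℝ) else 0) ≤
      c ^ (n - (k + 1)) := by
    have := prefix_count (List.replicate (k + 1) z) (n - (k + 1))
    rwa [List.length_replicate, Nat.add_sub_cancel' hn] at this
  have hsuf : ∑ w ∈ W A n, (if List.replicate (k + 1) z <:+ w then (1 : ℝ) else 0) ≤
      c ^ (n - (k + 1)) := by
    have := suffix_count (List.replicate (k + 1) z) (n - (k + 1))
    rwa [List.length_replicate, Nat.sub_add_cancel hn] at this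
  have hsum : ∑ w ∈ W A n, (1 / 4 * (1 - (-1) ^ occ x w) * (1 + (w.map χ).prod) -
      (if List.replicate (k + 1) z <+: w then (1 : ℝ) else 0) -
      (if List.replicate (k + 1) z <:+ w then (1 : ℝ) else 0)) ≤
      ∑ w ∈ W A n, if w ∈ S z o (k + 1) \ oddOcc Γ then (1 : ℝ) else 0 := by
    refine Finset.sum_le_sum fun w _ => ?_
    rw [prod_sgn]
    by_cases h1 : Odd (occ x w)
    · rw [h1.neg_one_pow]
      by_cases h2 : w ∈ oddOcc Γ
      · have h3 : w ∉ S z o (k + 1) \ oddOcc Γ := fun h => h.2 h2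
        rw [if_pos h2, if_neg h3]
        split_ifs <;> norm_num
      · rw [if_neg h2]
        by_cases h4 : List.replicate (k + 1) z <+: w
        · rw [if_pos h4]
          split_ifs <;> norm_num
        · by_cases h5 : List.replicate (k + 1) z <:+ w
          · rw [if_pos h5, if_neg h4]
            split_ifs <;> norm_num
          · have h6 : w ∈ S z o (k + 1) \ oddOcc Γ := ⟨⟨h1, h4, h5⟩, h2⟩
            rw [if_neg h4, if_neg h5, if_pos h6]
            norm_num
    · have h3 : w ∉ S z o (k + 1) \ oddOcc Γ := fun h => h1 h.1.1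
      rw [(Nat.not_odd_iff_even.mp h1).neg_one_pow, if_neg h3]
      split_ifs <;> norm_num
  have hexp : ∑ w ∈ W A n, (1 / 4 * (1 - (-1) ^ occ x w) * (1 + (w.map χ).prod) -
      (if List.replicate (k + 1) z <+: w then (1 : ℝ) else 0) -
      (if List.replicate (k + 1) z <:+ w then (1 : ℝ) else 0)) =
      1 / 4 * (c ^ n + (∑ a, χ a) ^ n - T x (fun _ => (1 : ℝ)) [] n - T x χ [] n) -
      ∑ w ∈ W A n, (if List.replicate (k + 1) z <+: w then (1 : ℝ) else 0) -
      ∑ w ∈ W A n, (if List.replicate (k + 1) z <:+ w then (1 : ℝ) else 0) := by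
    rw [← card_W, ← sum_prod, T, T, ← nsmul_one (W A n).card, ← Finset.sum_const,
      ← Finset.sum_add_distrib, ← Finset.sum_sub_distrib, ← Finset.sum_sub_distrib,
      Finset.mul_sum, ← Finset.sum_sub_distrib, ← Finset.sum_sub_distrib]
    refine Finset.sum_congr rfl fun w _ => ?_
    simp only [List.nil_append, List.map_const', List.prod_replicate, one_pow]
    ring
  rw [density_eq, le_div_iff₀ (by positivity)]
  refine le_trans ?_ hsum
  rw [hexp]
  have hcn : c ^ (n - (k + 1)) = c ^ n / c ^ (k + 1) := by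
    rw [eq_div_iff (by positivity), ← pow_add, Nat.sub_add_cancel hn]
  rw [hcn] at hpre hsuf
  rw [hpow] at hT1 hT2
  have e1 := (abs_le.mp hT1).2
  have e2 := (abs_le.mp hT2).2
  have e3 : (1 / 4 * (1 + ((∑ a, χ a) / c) ^ n - 2 * ((c ^ b - 2) / c ^ b) ^ (n / b)) -
      2 / c ^ (k + 1)) * c ^ n = 1 / 4 * (c ^ n + (∑ a, χ a) ^ n -
        2 * (((c ^ b - 2) / c ^ b) ^ (n / b) * c ^ n)) - 2 * (c ^ n / c ^ (k + 1)) := by
    rw [div_pow (∑ a, χ a) c]
    have : (∑ a, χ a) ^ n = (∑ a, χ a) ^ n / c ^ n * c ^ n := by field_simp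
    rw [this]
    field_simp
  rw [e3]
  linarith

end Sums

/-! ### Averages -/

lemma avg_tendsto {g : ℕ → ℝ} (hg : Tendsto g atTop (nhds 0)) :
    Tendsto (fun I : ℕ × ℕ => (∑ n ∈ Finset.Ico I.1 (I.1 + I.2), g n) / (I.2 : ℝ)) atTop
      (nhds 0) := by
  rw [Metric.tendsto_atTop] at hg ⊢
  intro ε hε
  obtain ⟨N, hN⟩ := hg (ε / 2) (by positivity)
  refine ⟨(N, 1), fun I hI => ?_⟩
  have h1 : N ≤ I.1 := hI.1
  have h2 : 1 ≤ I.2 := hI.2
  have h3 : (0 : ℝ) < I.2 := by exact_mod_cast h2
  rw [dist_zero_right, norm_div, Real.norm_of_nonneg h3.le, div_lt_iff₀ h3]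
  calc ‖∑ n ∈ Finset.Ico I.1 (I.1 + I.2), g n‖
      ≤ ∑ n ∈ Finset.Ico I.1 (I.1 + I.2), ‖g n‖ := norm_sum_le _ _
    _ ≤ ∑ n ∈ Finset.Ico I.1 (I.1 + I.2), ε / 2 := by
        refine Finset.sum_le_sum fun n hn => ?_
        rw [Finset.mem_Ico] at hn
        have := hN n (h1.trans hn.1)
        rw [dist_zero_right] at this
        exact this.le
    _ = ε / 2 * I.2 := by simp; ring
    _ < ε * I.2 := by
        apply mul_lt_mul_of_pos_right _ h3
        linarith

lemma avg_pow_tendsto {r : ℝ} (h1 : -1 ≤ r) (h2 : r < 1) :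
    Tendsto (fun I : ℕ × ℕ => (∑ n ∈ Finset.Ico I.1 (I.1 + I.2), r ^ n) / (I.2 : ℝ)) atTop
      (nhds 0) := by
  have habs : |r| ≤ 1 := abs_le.mpr ⟨h1, h2.le⟩
  have hbound : ∀ I : ℕ × ℕ, |(∑ n ∈ Finset.Ico I.1 (I.1 + I.2), r ^ n) / (I.2 : ℝ)| ≤
      (2 / (1 - r)) / (I.2 : ℝ) := by
    intro I
    rw [abs_div, Nat.abs_cast]
    apply div_le_div_of_nonneg_right _ (Nat.cast_nonneg _)
    have h3 : (1 - r) * ∑ n ∈ Finset.Ico I.1 (I.1 + I.2), r ^ n = r ^ I.1 - r ^ (I.1 + I.2) := by
      obtain ⟨a, l⟩ := I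
      simp only
      induction l with
      | zero => simp
      | succ l ih =>
        rw [← add_assoc, Finset.sum_Ico_succ_top (by omega), mul_add, ih, pow_succ]
        ring
    have h4 : 0 < 1 - r := by linarith
    rw [le_div_iff₀ h4, mul_comm, ← abs_of_pos h4, ← abs_mul, h3]
    calc |r ^ I.1 - r ^ (I.1 + I.2)| ≤ |r ^ I.1| + |r ^ (I.1 + I.2)| := abs_sub _ _
      _ ≤ 1 + 1 := by
        rw [abs_pow, abs_pow]
        exact add_le_add (pow_le_one₀ (abs_nonneg _) habs) (pow_le_one₀ (abs_nonneg _) habs)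
      _ = 2 := by norm_num
  have h5 : Tendsto (fun I : ℕ × ℕ => (2 / (1 - r)) / (I.2 : ℝ)) atTop (nhds 0) := by
    have : Tendsto (fun I : ℕ × ℕ => (I.2 : ℝ)) atTop atTop := by
      rw [← prod_atTop_atTop_eq]
      exact tendsto_natCast_atTop_atTop.comp tendsto_snd
    exact this.const_div_atTop _
  exact squeeze_zero_norm hbound h5

lemma density_nonneg {A : Type} [Fintype A] (B : Set (List A)) (n : ℕ) : 0 ≤ density B n := by
  unfold density
  positivity

lemma density_le_one {A : Type} [Fintype A] (B : Set (List A)) (n : ℕ) : density B n ≤ 1 := by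
  classical
  rw [density_eq]
  apply div_le_one_of_le₀ _ (by positivity)
  rw [← card_W, ← nsmul_one (W A n).card, ← Finset.sum_const]
  refine Finset.sum_le_sum fun w _ => ?_
  split_ifs <;> norm_num

lemma intervalDensity_le_one {A : Type} [Fintype A] (B : Set (List A)) (I : ℕ × ℕ) :
    intervalDensity B I ≤ 1 := by
  unfold intervalDensity
  apply div_le_one_of_le₀ _ (Nat.cast_nonneg _)
  calc _ ≤ ∑ n ∈ Finset.Ico I.1 (I.1 + I.2), (1 : ℝ) :=
        Finset.sum_le_sum fun n _ => density_le_one B n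
    _ = I.2 := by simp

lemma le_upperBanach {A : Type} [Fintype A] (B : Set (List A)) {g : ℕ × ℕ → ℝ} {α : ℝ}
    (hg : Tendsto g atTop (nhds α)) (hle : ∀ᶠ I in atTop, g I ≤ intervalDensity B I) :
    α ≤ upperBanach B := by
  rw [upperBanach, ← hg.limsup_eq]
  refine limsup_le_limsup hle ?_ ?_
  · exact hg.isBoundedUnder_ge.isCoboundedUnder_le
  · exact isBoundedUnder_of ⟨1, intervalDensity_le_one B⟩

/-- lower bound for the upper Banach density -/
lemma upperBanach_ge {A : Type} [Fintype A] [DecidableEq A] {z o : A} (hzo : z ≠ o) {h : ℕ}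
    (hh : 0 < h) (Γ : Set A) {β : ℝ}
    (hβ : Tendsto (fun I : ℕ × ℕ => (∑ n ∈ Finset.Ico I.1 (I.1 + I.2),
      ((∑ a, sgn Γ a) / (Fintype.card A : ℝ)) ^ n) / (I.2 : ℝ)) atTop (nhds β)) :
    1 / 4 * (1 + β) - 2 / (Fintype.card A : ℝ) ^ h ≤ upperBanach (S z o h \ oddOcc Γ) := by
  set c : ℝ := (Fintype.card A : ℝ) with hc
  have hcard : 2 ≤ Fintype.card A := Fintype.one_lt_card_iff.mpr ⟨z, o, hzo⟩
  have hc2 : (2 : ℝ) ≤ c := by
    rw [hc]
    exact_mod_cast hcard
  have hc0 : 0 < c := by linarith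
  set r := (∑ a, sgn Γ a) / c with hr
  set b := 2 * h + 3 with hb
  set ρ := (c ^ b - 2) / c ^ b with hρ
  have hcb : 2 ≤ c ^ b := by
    calc (2 : ℝ) ≤ c := hc2
      _ = c ^ 1 := (pow_one c).symm
      _ ≤ c ^ b := pow_le_pow_right₀ (by linarith) (by omega)
  have hρ0 : 0 ≤ ρ := div_nonneg (by linarith) (by positivity)
  have hρ1 : ρ < 1 := by
    rw [hρ, div_lt_one (by positivity)]
    linarith
  have hg1 : Tendsto (fun n : ℕ => ρ ^ (n / b)) atTop (nhds 0) :=
    (tendsto_pow_atTop_nhds_zero_of_lt_one hρ0 hρ1).comp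
      (Nat.tendsto_div_const_atTop (by omega))
  have hg2 := avg_tendsto hg1
  have hg3 : Tendsto (fun I : ℕ × ℕ => 1 / 4 * (1 + (∑ n ∈ Finset.Ico I.1 (I.1 + I.2),
      r ^ n) / (I.2 : ℝ)) - 1 / 2 * ((∑ n ∈ Finset.Ico I.1 (I.1 + I.2), ρ ^ (n / b)) / (I.2 : ℝ)) -
      2 / c ^ h) atTop (nhds (1 / 4 * (1 + β) - 1 / 2 * 0 - 2 / c ^ h)) :=
    (((hβ.const_add 1).const_mul (1 / 4)).sub (hg2.const_mul (1 / 2))).sub_const _
  have hα : 1 / 4 * (1 + β) - 1 / 2 * 0 - 2 / c ^ h = 1 / 4 * (1 + β) - 2 / c ^ h := by ring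
  rw [hα] at hg3
  refine le_upperBanach _ hg3 ?_
  filter_upwards [eventually_ge_atTop ((h, 1) : ℕ × ℕ)] with I hI
  have h1 : h ≤ I.1 := hI.1
  have h2 : 1 ≤ I.2 := hI.2
  have h3 : (0 : ℝ) < I.2 := by exact_mod_cast h2
  rw [intervalDensity, le_div_iff₀ h3]
  have h4 : ∑ n ∈ Finset.Ico I.1 (I.1 + I.2), (1 / 4 * (1 + r ^ n - 2 * ρ ^ (n / b)) - 2 / c ^ h) ≤
      ∑ n ∈ Finset.Ico I.1 (I.1 + I.2), density (S z o h \ oddOcc Γ) n := by
    refine Finset.sum_le_sum fun n hn => ?_
    rw [Finset.mem_Ico] at hn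
    exact density_ge hzo hh Γ (h1.trans hn.1)
  refine le_trans (le_of_eq ?_) h4
  rw [Finset.sum_sub_distrib, ← Finset.mul_sum, Finset.sum_sub_distrib, Finset.sum_add_distrib,
    ← Finset.mul_sum]
  simp only [Finset.sum_const, Nat.card_Ico, Nat.add_sub_cancel_left, nsmul_eq_mul, mul_one]
  field_simp
  ring

/-! ### The result -/

/-- The stability statement Q1. -/
def Stability : Prop :=
  ∀ (A : Type) [Fintype A] [Nonempty A] (δ : ℝ), 0 < δ → ∃ ε : ℝ, 0 < ε ∧
    ∀ S : Set (List A), ProductFree S → 1 / 2 - ε < upperBanach S →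
      ∃ Γ : Set A, Γ.Nonempty ∧ upperBanach (S \ oddOcc Γ) < δ

lemma main (A : Type) [Fintype A] [Nontrivial A] (ε : ℝ) (hε : 0 < ε) :
    ∃ S : Set (List A), ProductFree S ∧ 1 / 2 - ε < upperBanach S ∧
      ∀ Γ : Set A, Γ.Nonempty → 1 / 4 - ε < upperBanach (S \ oddOcc Γ) := by
  classical
  obtain ⟨z, o, hzo⟩ := exists_pair_ne A
  set c : ℝ := (Fintype.card A : ℝ) with hc
  have hcard : 2 ≤ Fintype.card A := Fintype.one_lt_card_iff.mpr ⟨z, o, hzo⟩
  have hc2 : (2 : ℝ) ≤ c := by
    rw [hc]
    exact_mod_cast hcard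
  have hc0 : 0 < c := by linarith
  obtain ⟨h, hh⟩ := exists_pow_lt_of_lt_one (show 0 < ε / 2 by positivity)
    (show (1 / 2 : ℝ) < 1 by norm_num)
  have hsmall : 2 / c ^ (h + 1) < ε := by
    have e1 : (2 : ℝ) ^ (h + 1) ≤ c ^ (h + 1) := pow_le_pow_left₀ (by norm_num) hc2 _
    calc 2 / c ^ (h + 1) ≤ 2 / 2 ^ (h + 1) := div_le_div_of_nonneg_left (by norm_num)
          (by positivity) e1
      _ = (1 / 2) ^ h := by
        rw [pow_succ, one_div, inv_pow]
        field_simp
      _ < ε / 2 := hh
      _ < ε := by linarith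
  refine ⟨S z o (h + 1), productFree_S z o _, ?_, ?_⟩
  · have h1 : S z o (h + 1) = S z o (h + 1) \ oddOcc (∅ : Set A) := by
      ext w
      simp [oddOcc]
    have h2 : (∑ a, sgn (∅ : Set A) a) / c = 1 := by
      simp only [sgn, Set.mem_empty_iff_false, if_false, Finset.sum_const, Finset.card_univ,
        nsmul_eq_mul, mul_one]
      exact div_self hc0.ne'
    have h3 := upperBanach_ge hzo (h := h + 1) (by omega) (∅ : Set A) (β := 1) (by
      rw [← hc, h2]
      refine tendsto_nhds_of_eventually_eq ?_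
      filter_upwards [eventually_ge_atTop ((0, 1) : ℕ × ℕ)] with I hI
      have h4 : 1 ≤ I.2 := hI.2
      have h5 : (I.2 : ℝ) ≠ 0 := by positivity
      simp [h5])
    rw [h1]
    linarith
  · intro Γ hΓ
    have h1 : (∑ a, sgn Γ a) / c < 1 := by
      rw [div_lt_one hc0, hc, ← Finset.card_univ, ← nsmul_one (Finset.univ : Finset A).card,
        ← Finset.sum_const]
      obtain ⟨a, ha⟩ := hΓ
      refine Finset.sum_lt_sum (fun b _ => (abs_le.mp (abs_sgn Γ b).le).2) ⟨a, mem_univ _, ?_⟩
      simp only [sgn, if_pos ha]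
      norm_num
    have h2 : -1 ≤ (∑ a, sgn Γ a) / c := by
      rw [le_div_iff₀ hc0, hc, ← Finset.card_univ, neg_one_mul,
        ← nsmul_one (Finset.univ : Finset A).card, ← Finset.sum_const, ← Finset.sum_neg_distrib]
      exact Finset.sum_le_sum fun b _ => (abs_le.mp (abs_sgn Γ b).le).1
    have h3 := upperBanach_ge hzo (h := h + 1) (by omega) Γ (avg_pow_tendsto h2 h1)
    linarith

/-- **No stability.** Over every finite alphabet with at least two letters there are, for every
`ε > 0`, product-free sets `S` of words with upper Banach density more than `1/2 - ε` such that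
`S \ O_Γ` has upper Banach density more than `1/4 - ε` for every nonempty set `Γ` of letters. In
particular the stability statement is false. -/
theorem result :
    (∀ (A : Type) [Fintype A] [Nontrivial A] (ε : ℝ), 0 < ε →
      ∃ S : Set (List A), ProductFree S ∧ 1 / 2 - ε < upperBanach S ∧
        ∀ Γ : Set A, Γ.Nonempty → 1 / 4 - ε < upperBanach (S \ oddOcc Γ)) ∧ ¬ Stability := by
  refine ⟨fun A _ _ ε hε => main A ε hε, fun hst => ?_⟩
  obtain ⟨ε, hε, h⟩ := hst Bool (1 / 8) (by norm_num)
  obtain ⟨S, h1, h2, h3⟩ := main Bool (min ε (1 / 8)) (lt_min hε (by norm_num))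
  obtain ⟨Γ, hΓ, h4⟩ := h S h1 (by
    have := min_le_left ε (1 / 8 : ℝ)
    linarith)
  have h5 := h3 Γ hΓ
  have := min_le_right ε (1 / 8 : ℝ)
  linarith

end Pool.Agent.Results.MP_ae7721_co.NoStability
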